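import Pool.Agent.P.MP_e05717_an.Move

/-!
Two trace-scaling automorphisms of `N = L(F_∞) ⊗ B(ℓ²)` with the same modulus in `(0,1)` that are
not outer conjugate.

The Hilbert space `ℓ²(F_∞) ⊗ ℓ²(ℕ) = ℓ²(F_∞ × ℕ)` is given as a Hilbert space `K` with a Hilbert
basis `b (g, n) = δ_g ⊗ e_n`, where `F_∞` is the free group on the set `ℕ` of generators.
-/

open scoped InnerProductSpace ENNReal

noncomputable section

namespace Pool.Agent.Results.MP_e05717_an.TraceScaling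

variable {K : Type} [NormedAddCommGroup K] [InnerProductSpace ℂ K] [CompleteSpace K]

/-- The operators `λ(g) ⊗ E_{ij}`, with `λ` the left regular representation of `F_∞` and `E_{ij}`
the matrix units of `B(ℓ²(ℕ))`. -/
def Gen (b : HilbertBasis (FreeGroup ℕ × ℕ) ℂ K) : Set (K →L[ℂ] K) :=
  {S | ∃ (g : FreeGroup ℕ) (i j : ℕ), ∀ h n, S (b (h, n)) = if n = j then b (g * h, i) else 0}

/-- The trace `τ ⊗ Tr` at a positive operator: `∑ₙ ⟨δ_e ⊗ e_n, x (δ_e ⊗ e_n)⟩ ∈ [0, ∞]`. -/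
def Tr (b : HilbertBasis (FreeGroup ℕ × ℕ) ℂ K) (x : K →L[ℂ] K) : ℝ≥0∞ :=
  ∑' n : ℕ, ENNReal.ofReal (⟪b (1, n), x (b (1, n))⟫_ℂ).re

/-- `N` is the double commutant of the operators `λ(g) ⊗ E_{ij}`, that is `L(F_∞) ⊗ B(ℓ²)`
(`StarSubalgebra.centralizer ℂ S` is the commutant of `S ∪ S*`). -/
theorem result (b : HilbertBasis (FreeGroup ℕ × ℕ) ℂ K) (N : StarSubalgebra ℂ (K →L[ℂ] K))
    (hN : N = StarSubalgebra.centralizer ℂ
      (StarSubalgebra.centralizer ℂ (Gen b) : Set (K →L[ℂ] K))) :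
    ∃ l : ℝ, 0 < l ∧ l < 1 ∧ ∃ θ₁ θ₂ : N ≃⋆ₐ[ℂ] N,
      (∀ x : N, 0 ≤ x.1 → Tr b (θ₁ x).1 = ENNReal.ofReal l * Tr b x.1) ∧
      (∀ x : N, 0 ≤ x.1 → Tr b (θ₂ x).1 = ENNReal.ofReal l * Tr b x.1) ∧
      ¬ ∃ (σ : N ≃⋆ₐ[ℂ] N) (u : N), u ∈ unitary N ∧
        ∀ x, σ (θ₁ (σ.symm x)) = u * θ₂ x * star u := by
  subst hN
  exact Pool.Agent.TS.main_basis b fun _ => Iff.rfl

end Pool.Agent.Results.MP_e05717_an.TraceScaling
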